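import Mathlib

/-!
# Quotients of finite groups with the conditional Engel identity (V-r)

Let `G` be a finite group satisfying (V-r). Then `G / N` satisfies (V-r) for every normal subgroup
`N` of `G` which lies in the last term of a finite series of normal subgroups of `G` whose factors
have prime order, or order four, or are such that every `y` in `G` acts on the factor either
without nontrivial fixed points or in an Engel way.
-/

namespace Pool.Agent.Results.MP_553e84_al.SmallFactors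

/-- `eng x y k` is the left-normed commutator `[x, y, ..., y]` with `k` entries `y`, where
`[g, y] = g⁻¹ y⁻¹ g y`. -/
def eng {G : Type*} [Group G] (x y : G) : ℕ → G
  | 0 => x
  | k + 1 => (eng x y k)⁻¹ * y⁻¹ * eng x y k * y

/-- The conditional identity (V-r). -/
def V (r : ℕ) (G : Type*) [Group G] : Prop :=
  ∀ x y : G, (∃ k, eng x y k = 1) → eng x y r = 1

/-- For normal subgroups `A ≤ B` of `G`: every element `y` of `G` acts on `B / A` either without
nontrivial fixed points, or in such a way that `[b, y, ..., y]` (with sufficiently many `y`) lies in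
`A` for every `b` in `B`. -/
def Dich {G : Type*} [Group G] (A B : Subgroup G) : Prop :=
  ∀ y : G, (∀ b ∈ B, b⁻¹ * y⁻¹ * b * y ∈ A → b ∈ A) ∨ (∀ b ∈ B, ∃ j, eng b y j ∈ A)

section aux

variable {G : Type*} [Group G]

theorem eng_add (x y : G) (k j : ℕ) : eng (eng x y k) y j = eng x y (k + j) := by
  induction j with
  | zero => rfl
  | succ j ih => rw [← Nat.add_assoc]; simp only [eng]; rw [ih]

theorem eng_succ' (x y : G) (k : ℕ) : eng (x⁻¹ * y⁻¹ * x * y) y k = eng x y (k + 1) := by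
  have h := eng_add x y 1 k
  rw [Nat.add_comm 1 k] at h
  exact h

theorem eng_map {Q : Type*} [Group Q] (f : G →* Q) (x y : G) (k : ℕ) :
    eng (f x) (f y) k = f (eng x y k) := by
  induction k with
  | zero => rfl
  | succ k ih => simp only [eng]; rw [ih]; simp

theorem fpf_step [Finite G] (B : Subgroup G) [hB : B.Normal] (y : G)
    (hy : ∀ b ∈ B, b⁻¹ * y⁻¹ * b * y = 1 → b = 1) :
    ∀ (k : ℕ) (x : G), eng x y k ∈ B → ∃ b ∈ B, eng (x * b) y k = 1 := by
  intro k
  induction k with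
  | zero =>
    intro x hx
    exact ⟨x⁻¹, B.inv_mem hx, by simp [eng]⟩
  | succ k ih =>
    intro x hx
    rw [← eng_succ'] at hx
    obtain ⟨b', hb', h1⟩ := ih _ hx
    let c : G := y⁻¹ * x⁻¹ * y * x
    have hmem : ∀ b ∈ B, (x⁻¹ * y⁻¹ * x * y)⁻¹ * ((x * b)⁻¹ * y⁻¹ * (x * b) * y) ∈ B := by
      intro b hb
      have e : (x⁻¹ * y⁻¹ * x * y)⁻¹ * ((x * b)⁻¹ * y⁻¹ * (x * b) * y)
          = (c * b⁻¹ * c⁻¹) * (y⁻¹ * b * y⁻¹⁻¹) := by
        simp only [c]; group
      rw [e]
      exact B.mul_mem (hB.conj_mem _ (B.inv_mem hb) _) (hB.conj_mem _ hb _)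
    let f : B → B := fun b => ⟨_, hmem b.1 b.2⟩
    have hinj : Function.Injective f := by
      intro b d hbd
      have h2 : (x⁻¹ * y⁻¹ * x * y)⁻¹ * ((x * b.1)⁻¹ * y⁻¹ * (x * b.1) * y)
          = (x⁻¹ * y⁻¹ * x * y)⁻¹ * ((x * d.1)⁻¹ * y⁻¹ * (x * d.1) * y) := by
        simpa [f] using congrArg Subtype.val hbd
      have h3 := mul_left_cancel h2
      have h4 : (x * b.1)⁻¹ * y⁻¹ * (x * b.1) = (x * d.1)⁻¹ * y⁻¹ * (x * d.1) :=
        mul_right_cancel h3
      have h5 : (x * b.1 * (x * d.1)⁻¹)⁻¹ * y⁻¹ * (x * b.1 * (x * d.1)⁻¹) * y = 1 := by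
        calc (x * b.1 * (x * d.1)⁻¹)⁻¹ * y⁻¹ * (x * b.1 * (x * d.1)⁻¹) * y
            = (x * d.1) * ((x * b.1)⁻¹ * y⁻¹ * (x * b.1)) * (x * d.1)⁻¹ * y := by group
          _ = (x * d.1) * ((x * d.1)⁻¹ * y⁻¹ * (x * d.1)) * (x * d.1)⁻¹ * y := by rw [h4]
          _ = 1 := by group
      have h6 : x * b.1 * (x * d.1)⁻¹ ∈ B := by
        have e : x * b.1 * (x * d.1)⁻¹ = x * (b.1 * d.1⁻¹) * x⁻¹ := by group
        rw [e]
        exact hB.conj_mem _ (B.mul_mem b.2 (B.inv_mem d.2)) _
      have h7 := hy _ h6 h5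
      have h8 : x * b.1 = x * d.1 := by
        rw [mul_inv_eq_one] at h7
        exact h7
      exact Subtype.ext (mul_left_cancel h8)
    obtain ⟨b, hb⟩ := (Finite.injective_iff_surjective.mp hinj) ⟨b', hb'⟩
    have h9 : (x⁻¹ * y⁻¹ * x * y)⁻¹ * ((x * b.1)⁻¹ * y⁻¹ * (x * b.1) * y) = b' := by
      simpa [f] using congrArg Subtype.val hb
    have h10 : (x * b.1)⁻¹ * y⁻¹ * (x * b.1) * y = x⁻¹ * y⁻¹ * x * y * b' := by
      rw [← h9]; group
    refine ⟨b.1, b.2, ?_⟩
    rw [← eng_succ', h10]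
    exact h1

/-- (V-r) modulo a subgroup. -/
def VMod (r : ℕ) (A : Subgroup G) : Prop :=
  ∀ x y : G, (∃ k, eng x y k ∈ A) → eng x y r ∈ A

theorem step [Finite G] (r : ℕ) (A B : Subgroup G) [hA : A.Normal] [hB : B.Normal] (hAB : A ≤ B)
    (hd : Dich A B) (h : VMod r A) : VMod r B := by
  rintro x y ⟨k, hk⟩
  rcases hd y with h1 | h1
  · have hBn : (B.map (QuotientGroup.mk' A)).Normal :=
      hB.map _ (QuotientGroup.mk'_surjective A)
    have h2 := fpf_step (B.map (QuotientGroup.mk' A)) (QuotientGroup.mk' A y) (by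
      rintro _ ⟨b, hb, rfl⟩ e
      have e' : QuotientGroup.mk' A (b⁻¹ * y⁻¹ * b * y) = 1 := by
        simpa using e
      have e2 : b⁻¹ * y⁻¹ * b * y ∈ A := by
        rw [← QuotientGroup.ker_mk' A]
        exact MonoidHom.mem_ker.mpr e'
      have e3 := h1 b hb e2
      rw [← QuotientGroup.ker_mk' A] at e3
      exact MonoidHom.mem_ker.mp e3) k (QuotientGroup.mk' A x) (by
        rw [eng_map]
        exact Subgroup.mem_map_of_mem _ hk)
    obtain ⟨_, ⟨b, hb, rfl⟩, h3⟩ := h2
    rw [← map_mul, eng_map] at h3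
    have h4 : eng (x * b) y k ∈ A := by
      rw [← QuotientGroup.ker_mk' A]
      exact MonoidHom.mem_ker.mpr h3
    have h5 : eng (x * b) y r ∈ B := hAB (h _ _ ⟨k, h4⟩)
    have h6 : QuotientGroup.mk' B (eng (x * b) y r) = QuotientGroup.mk' B (eng x y r) := by
      rw [← eng_map, ← eng_map, map_mul]
      have : QuotientGroup.mk' B b = 1 := by
        rw [← MonoidHom.mem_ker, QuotientGroup.ker_mk']
        exact hb
      rw [this, mul_one]
    have h7 : QuotientGroup.mk' B (eng (x * b) y r) = 1 := by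
      rw [← MonoidHom.mem_ker, QuotientGroup.ker_mk']
      exact h5
    rw [h7] at h6
    have h8 : eng x y r ∈ (QuotientGroup.mk' B).ker := MonoidHom.mem_ker.mpr h6.symm
    rwa [QuotientGroup.ker_mk'] at h8
  · obtain ⟨j, hj⟩ := h1 _ hk
    rw [eng_add] at hj
    exact hAB (h _ _ ⟨_, hj⟩)

/-- The elements of `B` centralised by `y` modulo `A`. -/
def fixMod (A B : Subgroup G) [A.Normal] (y : G) : Subgroup G :=
  B ⊓ (Subgroup.centralizer {QuotientGroup.mk' A y}).comap (QuotientGroup.mk' A)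

theorem mem_fixMod (A B : Subgroup G) [hA : A.Normal] (y b : G) :
    b ∈ fixMod A B y ↔ b ∈ B ∧ b⁻¹ * y⁻¹ * b * y ∈ A := by
  unfold fixMod
  rw [Subgroup.mem_inf, Subgroup.mem_comap, Subgroup.mem_centralizer_singleton_iff]
  refine and_congr_right fun _ => ?_
  have e : b⁻¹ * y⁻¹ * b * y ∈ A ↔ QuotientGroup.mk' A (b⁻¹ * y⁻¹ * b * y) = 1 := by
    rw [← MonoidHom.mem_ker, QuotientGroup.ker_mk']
  rw [e]
  simp only [map_mul, map_inv]
  generalize QuotientGroup.mk' A b = u
  generalize QuotientGroup.mk' A y = v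
  constructor
  · intro h
    have : u⁻¹ * v⁻¹ * u * v = (v * u)⁻¹ * (u * v) := by group
    rw [this, h, inv_mul_cancel]
  · intro h
    have h2 : (v * u)⁻¹ * (u * v) = 1 := by
      rw [← h]; group
    rw [inv_mul_eq_one] at h2
    exact h2.symm

theorem dich_of_index (A B : Subgroup G) [hA : A.Normal] [hB : B.Normal] (hAB : A ≤ B)
    (h : (A.relIndex B).Prime ∨ A.relIndex B = 4) : Dich A B := by
  intro y
  have hAC : A ≤ fixMod A B y := by
    intro a ha
    rw [mem_fixMod]
    refine ⟨hAB ha, ?_⟩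
    have e : a⁻¹ * y⁻¹ * a * y = a⁻¹ * (y⁻¹ * a * y⁻¹⁻¹) := by group
    rw [e]
    exact A.mul_mem (A.inv_mem ha) (hA.conj_mem _ ha _)
  have hCB : fixMod A B y ≤ B := fun b hb => ((mem_fixMod A B y b).mp hb).1
  have hmul := Subgroup.relIndex_mul_relIndex A (fixMod A B y) B hAC hCB
  have case1 : A.relIndex (fixMod A B y) = 1 →
      (∀ b ∈ B, b⁻¹ * y⁻¹ * b * y ∈ A → b ∈ A) := by
    intro h1 b hb hb2
    rw [Subgroup.relIndex_eq_one] at h1
    exact h1 ((mem_fixMod A B y b).mpr ⟨hb, hb2⟩)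
  have case2 : (fixMod A B y).relIndex B = 1 → (∀ b ∈ B, ∃ j, eng b y j ∈ A) := by
    intro h1 b hb
    rw [Subgroup.relIndex_eq_one] at h1
    exact ⟨1, ((mem_fixMod A B y b).mp (h1 hb)).2⟩
  rcases h with h | h
  · rw [← hmul] at h
    rcases Nat.prime_mul_iff.mp h with ⟨_, h2⟩ | ⟨_, h2⟩
    · exact Or.inr (case2 h2)
    · exact Or.inl (case1 h2)
  · rw [h] at hmul
    have hdiv : A.relIndex (fixMod A B y) ∣ 4 := ⟨_, hmul.symm⟩
    have hle : A.relIndex (fixMod A B y) ≤ 4 := Nat.le_of_dvd (by norm_num) hdiv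
    have hcases : A.relIndex (fixMod A B y) = 1 ∨ (fixMod A B y).relIndex B = 1 ∨
        (fixMod A B y).relIndex B = 2 := by
      generalize A.relIndex (fixMod A B y) = u at *
      generalize (fixMod A B y).relIndex B = v at *
      interval_cases u <;> omega
    rcases hcases with h1 | h1 | h1
    · exact Or.inl (case1 h1)
    · exact Or.inr (case2 h1)
    · right
      intro b hb
      refine ⟨2, ?_⟩
      have hby : y⁻¹ * b * y⁻¹⁻¹ ∈ B := hB.conj_mem _ hb _
      have hinv : b ∈ fixMod A B y ↔ y⁻¹ * b * y⁻¹⁻¹ ∈ fixMod A B y := by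
        rw [mem_fixMod, mem_fixMod]
        constructor
        · rintro ⟨_, h3⟩
          refine ⟨hby, ?_⟩
          have e : (y⁻¹ * b * y⁻¹⁻¹)⁻¹ * y⁻¹ * (y⁻¹ * b * y⁻¹⁻¹) * y
              = y⁻¹ * (b⁻¹ * y⁻¹ * b * y) * y⁻¹⁻¹ := by group
          rw [e]
          exact hA.conj_mem _ h3 _
        · rintro ⟨_, h3⟩
          refine ⟨hb, ?_⟩
          have e : b⁻¹ * y⁻¹ * b * y
              = y * ((y⁻¹ * b * y⁻¹⁻¹)⁻¹ * y⁻¹ * (y⁻¹ * b * y⁻¹⁻¹) * y) * y⁻¹ := by group
          rw [e]
          exact hA.conj_mem _ h3 _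
      have hidx : ((fixMod A B y).subgroupOf B).index = 2 := h1
      have h4 := Subgroup.mul_mem_iff_of_index_two hidx (a := (⟨b, hb⟩ : B)⁻¹)
        (b := (⟨_, hby⟩ : B))
      have h5 : (⟨b, hb⟩ : B)⁻¹ * ⟨_, hby⟩ ∈ (fixMod A B y).subgroupOf B := by
        rw [h4, Subgroup.inv_mem_iff, Subgroup.mem_subgroupOf, Subgroup.mem_subgroupOf]
        exact hinv
      rw [Subgroup.mem_subgroupOf] at h5
      have h6 : b⁻¹ * y⁻¹ * b * y ∈ fixMod A B y := by
        have e : (((⟨b, hb⟩ : B)⁻¹ * ⟨_, hby⟩ : B) : G) = b⁻¹ * y⁻¹ * b * y := by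
          simp only [Subgroup.coe_mul, Subgroup.coe_inv]
          group
        rw [← e]
        exact h5
      exact ((mem_fixMod A B y _).mp h6).2

end aux

/-- Let `G` be a finite group satisfying (V-r) and let `1 = H 0 ≤ H 1 ≤ ... ≤ H n` be normal
subgroups of `G` such that every factor `H (i+1) / H i` has prime order, or order four, or is such
that each `y` in `G` acts on it either without nontrivial fixed points or in an Engel way. Then
`G / N` satisfies (V-r) for every normal subgroup `N` of `G` contained in `H n`. -/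
theorem result : ∀ (r : ℕ) (G : Type) [Group G] [Finite G], V r G →
    ∀ (n : ℕ) (H : ℕ → Subgroup G), H 0 = ⊥ → (∀ i, (H i).Normal) → (∀ i < n, H i ≤ H (i + 1)) →
    (∀ i < n, ((H i).relIndex (H (i + 1))).Prime ∨ (H i).relIndex (H (i + 1)) = 4 ∨
      Dich (H i) (H (i + 1))) →
    ∀ (N : Subgroup G) [N.Normal], N ≤ H n → V r (G ⧸ N) := by
  intro r G _ _ hV n H h0 hH hle hf N hN hNH
  have key : ∀ i ≤ n, VMod r (N ⊓ H i) := by
    intro i
    induction i with
    | zero =>
      intro _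
      rintro x y ⟨k, hk⟩
      rw [h0, inf_bot_eq, Subgroup.mem_bot] at *
      exact hV x y ⟨k, hk⟩
    | succ i ih =>
      intro hi
      have hHi := hH i
      have hHi1 := hH (i + 1)
      refine step r (N ⊓ H i) (N ⊓ H (i + 1)) (inf_le_inf_left _ (hle i (by omega))) ?_
        (ih (by omega))
      have hdich : Dich (H i) (H (i + 1)) := by
        rcases hf i (by omega) with h1 | h1 | h1
        · exact dich_of_index _ _ (hle i (by omega)) (Or.inl h1)
        · exact dich_of_index _ _ (hle i (by omega)) (Or.inr h1)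
        · exact h1
      intro y
      rcases hdich y with h1 | h1
      · left
        intro b hb hb2
        exact ⟨hb.1, h1 b hb.2 hb2.2⟩
      · right
        intro b hb
        obtain ⟨j, hj⟩ := h1 b hb.2
        refine ⟨j, ?_, hj⟩
        have : ∀ j, eng b y j ∈ N := by
          intro j
          induction j with
          | zero => exact hb.1
          | succ j ihj =>
            simp only [eng]
            have e : (eng b y j)⁻¹ * y⁻¹ * eng b y j * y
                = (eng b y j)⁻¹ * (y⁻¹ * eng b y j * y⁻¹⁻¹) := by group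
            rw [e]
            exact N.mul_mem (N.inv_mem ihj) (hN.conj_mem _ ihj _)
        exact this j
  have hN' : VMod r N := by
    have := key n le_rfl
    rwa [inf_eq_left.mpr hNH] at this
  intro x y
  induction x using QuotientGroup.induction_on with
  | H x =>
  induction y using QuotientGroup.induction_on with
  | H y =>
  rintro ⟨k, hk⟩
  have e : ∀ k, eng (x : G ⧸ N) (y : G ⧸ N) k = QuotientGroup.mk' N (eng x y k) :=
    fun k => eng_map (QuotientGroup.mk' N) x y k
  rw [e, ← MonoidHom.mem_ker, QuotientGroup.ker_mk'] at *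
  exact hN' x y ⟨k, hk⟩

end Pool.Agent.Results.MP_553e84_al.SmallFactors
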